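import Pool.Agent.helper70.QSD.SpecD

/-! Row qsd:BFE. -/

set_option autoImplicit false
set_option linter.unusedVariables false

namespace Pool.Agent.helper70.QSD

open Pool.Agent.helper53.AU
open scoped Classical IntermediateField Polynomial
open Filter (Tendsto atTop)
open FirstOrder

noncomputable section

theorem BFE_tv {Ω Ω' : Type} [Field Ω] [Field Ω'] (f : Ω →+* Ω') {β : Type}
    (t : Language.ring.Term β) (v : β → Ω) : tv t (fun i => f (v i)) = f (tv t v) := by
  unfold tv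
  let i1 := Ring.compatibleRingOfRing Ω
  let i2 := Ring.compatibleRingOfRing Ω'
  induction t with
  | var i => rfl
  | func g ts ih =>
    cases g with
    | add =>
      have h1 := ih 0
      have h2 := ih 1
      change (ts 0).realize (fun i => f (v i)) + (ts 1).realize (fun i => f (v i)) =
        f ((ts 0).realize v + (ts 1).realize v)
      rw [h1, h2, map_add]
    | mul =>
      have h1 := ih 0
      have h2 := ih 1
      change (ts 0).realize (fun i => f (v i)) * (ts 1).realize (fun i => f (v i)) =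
        f ((ts 0).realize v * (ts 1).realize v)
      rw [h1, h2, map_mul]
    | neg =>
      have h1 := ih 0
      change -(ts 0).realize (fun i => f (v i)) = f (-(ts 0).realize v)
      rw [h1, map_neg]
    | zero =>
      change (0 : Ω') = f 0
      rw [map_zero]
    | one =>
      change (1 : Ω') = f 1
      rw [map_one]

theorem BFE_snoc {X Y : Type} (g : X → Y) {n : ℕ} (xs : Fin n → X) (x : X) :
    (fun i => g ((Fin.snoc xs x : Fin (n + 1) → X) i)) =
      (Fin.snoc (fun i => g (xs i)) (g x) : Fin (n + 1) → Y) := by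
  funext i
  refine Fin.lastCases ?_ (fun j => ?_) i
  · simp
  · simp

theorem BFE_elim {X Y : Type} (g : X → Y) {β γ : Type} (v : β → X) (xs : γ → X) :
    Sum.elim (fun i => g (v i)) (fun i => g (xs i)) = fun i => g (Sum.elim v xs i) := by
  funext i
  cases i <;> rfl

theorem BFE_fal {Ω : Type} [Field Ω] (S : Set Ω) {α : Type} {n : ℕ} (v : α → Ω) (xs : Fin n → Ω) :
    RZ S (Language.BoundedFormula.falsum : Language.ring.BoundedFormula α n) v xs ↔ False := by
  rw [RZ]

theorem BFE_eq {Ω : Type} [Field Ω] (S : Set Ω) {α : Type} {n : ℕ}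
    (t₁ t₂ : Language.ring.Term (α ⊕ Fin n)) (v : α → Ω) (xs : Fin n → Ω) :
    RZ S (Language.BoundedFormula.equal t₁ t₂) v xs ↔
      tv t₁ (Sum.elim v xs) = tv t₂ (Sum.elim v xs) := by
  rw [RZ]

theorem BFE_rel {Ω : Type} [Field Ω] (S : Set Ω) {α : Type} {n l : ℕ}
    (R : Language.ring.Relations l) (ts : Fin l → Language.ring.Term (α ⊕ Fin n)) (v : α → Ω)
    (xs : Fin n → Ω) :
    RZ S (Language.BoundedFormula.rel R ts) v xs ↔ False := by
  rw [RZ]

theorem BFE_imp {Ω : Type} [Field Ω] (S : Set Ω) {α : Type} {n : ℕ}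
    (φ ψ : Language.ring.BoundedFormula α n) (v : α → Ω) (xs : Fin n → Ω) :
    RZ S (φ.imp ψ) v xs ↔ (RZ S φ v xs → RZ S ψ v xs) := by
  rw [RZ]

theorem BFE_all {Ω : Type} [Field Ω] (S : Set Ω) {α : Type} {n : ℕ}
    (φ : Language.ring.BoundedFormula α (n + 1)) (v : α → Ω) (xs : Fin n → Ω) :
    RZ S φ.all v xs ↔ ∀ x ∈ S, RZ S φ v (Fin.snoc xs x) := by
  rw [RZ]

theorem BFE (hEXT : EXT_stmt) (hBKX : BKX_stmt) : BFE_stmt := by
  intro N N' Φ Φ' hΦ hΦ' hN hN' α n φ
  induction φ with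
  | falsum =>
    intro A f hf v xs hv hxs
    rw [BFE_fal, BFE_fal]
  | equal t₁ t₂ =>
    intro A f hf v xs hv hxs
    rw [BFE_eq, BFE_eq, BFE_elim (fun a : A => (a : KS)), BFE_elim (fun a : A => f a)]
    have h1 : ∀ t : Language.ring.Term (α ⊕ Fin _), tv t (fun i => ((Sum.elim v xs i : A) : KS)) =
        ((tv t (Sum.elim v xs) : A) : KS) := fun t => BFE_tv A.subtype t (Sum.elim v xs)
    have h2 : ∀ t : Language.ring.Term (α ⊕ Fin _), tv t (fun i => f (Sum.elim v xs i)) =
        f (tv t (Sum.elim v xs)) := fun t => BFE_tv f t (Sum.elim v xs)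
    rw [h1, h1, h2, h2]
    constructor
    · intro h
      rw [Subtype.ext h]
    · intro h
      rw [f.injective h]
  | rel R ts =>
    intro A f hf v xs hv hxs
    rw [BFE_rel, BFE_rel]
  | imp φ ψ ih1 ih2 =>
    intro A f hf v xs hv hxs
    rw [BFE_imp, BFE_imp]
    exact imp_congr (ih1 A f hf v xs hv hxs) (ih2 A f hf v xs hv hxs)
  | all φ ih =>
    intro A f hf v xs hv hxs
    have key : ∀ (A₁ : Subfield KS) (f₁ : A₁ →+* KS) (hA : A ≤ A₁), Pos Φ Φ' A₁ f₁ →
        (∀ (x : KS) (hx : x ∈ A), f₁ ⟨x, hA hx⟩ = f ⟨x, hx⟩) → ∀ x : A₁, Φ x = x →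
        (RZ {x : KS | Φ x = x} φ (fun i => (v i : KS)) (Fin.snoc (fun i => (xs i : KS)) (x : KS)) ↔
          RZ {x : KS | Φ' x = x} φ (fun i => f (v i)) (Fin.snoc (fun i => f (xs i)) (f₁ x))) := by
      intro A₁ f₁ hA hp hext x hx
      have h := ih A₁ f₁ hp (fun i => ⟨v i, hA (v i).2⟩)
        (Fin.snoc (fun i => (⟨xs i, hA (xs i).2⟩ : A₁)) x) hv ?_
      · rw [BFE_snoc (fun a : A₁ => (a : KS)), BFE_snoc (fun a : A₁ => f₁ a)] at h
        have e1 : (fun i => f₁ ⟨v i, hA (v i).2⟩) = fun i => f (v i) :=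
          funext fun i => hext (v i) (v i).2
        have e2 : (fun i => f₁ ⟨xs i, hA (xs i).2⟩) = fun i => f (xs i) :=
          funext fun i => hext (xs i) (xs i).2
        rw [e1, e2] at h
        exact h
      · intro i
        refine Fin.lastCases ?_ (fun j => ?_) i
        · simpa using hx
        · simpa using hxs j
    rw [BFE_all, BFE_all]
    constructor
    · intro h y' hy'
      obtain ⟨A₁, f₁, hA, hp, hext, x, hx1, hx2⟩ := hBKX N N' Φ Φ' hΦ hΦ' hN hN' A f hf y' hy'
      rw [← hx1]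
      exact (key A₁ f₁ hA hp hext x hx2).1 (h x hx2)
    · intro h y hy
      obtain ⟨A₁, f₁, hA, hp, hy1, hext⟩ := hEXT N N' Φ Φ' hΦ hΦ' hN hN' A f hf y hy
      have hy' : Φ y = y := hy
      refine (key A₁ f₁ hA hp hext ⟨y, hy1⟩ hy').2 (h _ ?_)
      have h1 := hp.cmp y hy1 (by rw [hy']; exact hy1)
      change Φ' (f₁ ⟨y, hy1⟩) = f₁ ⟨y, hy1⟩
      have h2 : (⟨Φ y, by rw [hy']; exact hy1⟩ : A₁) = ⟨y, hy1⟩ := Subtype.ext hy'
      rw [h2] at h1
      exact h1

end

end Pool.Agent.helper70.QSD
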