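import Pool.Agent.helper70.QSD.SpecA
import Pool.Agent.helper98.MX.BSN

/-! Row qsd:BN2 (adapted from helper98/MX/BSN.lean). -/

set_option autoImplicit false
set_option linter.unusedVariables false

namespace Pool.Agent.helper70.QSD

open Pool.Agent.helper53.AU MX
open scoped Classical IntermediateField Polynomial

noncomputable section

theorem BN2_arith (l l' g w a b lm : ℤ) (hlm' : lm = l' - 1) (hgl : g ^ 2 + 3 * g + 1 < l')
    (hl2 : l ≤ 2 * l') (hl0 : 0 ≤ l) (hg0 : 0 ≤ g)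
    (ha : l + 2 * g + 2 ≤ a) (hb : l' - g ≤ b) (hw : w ≤ 1 + (l * lm + (l + 3 * g + 1))) :
    w < a * b := by
  subst hlm'
  have hb0 : (0 : ℤ) ≤ l' - g := by nlinarith
  have ha0 : (0 : ℤ) ≤ l + 2 * g + 2 := by linarith
  have hab : (l + 2 * g + 2) * (l' - g) ≤ a * b := mul_le_mul ha hb hb0 (by linarith)
  have h1 : g * l ≤ g * (2 * l') := mul_le_mul_of_nonneg_left hl2 hg0
  nlinarith

theorem BN2 (hQV1 : QV1_stmt) (hQV4 : QV4_stmt) (hQV5 : QV5_stmt) (hQR1 : QR1_stmt)
    (hQR3 : QR3_stmt) (hBSE : MX.BSE_stmt) (hSLK : MX.SLK_stmt) (hTPL : MX.TPL_stmt) :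
    BN2_stmt := by
  intro p _ k F _ _ _ _ _ hF g hg n n' l l' hl hl' hll2 hgl α hα τ
  have hchF : CharP F p := charP_of_injective_algebraMap (algebraMap k F).injective p
  obtain ⟨P⟩ := BSN_place hQR1 hF
  have hp0 : 0 < p := (Fact.out : p.Prime).pos
  have hl0 : 0 < l := by rw [hl]; positivity
  -- constants
  have hα1 : ∀ c : k, ∃ c' : k, α (algebraMap k F c) = algebraMap k F c' := by
    intro c
    obtain ⟨c', h, _⟩ := hα c
    exact ⟨c', h⟩
  have hα2 : ∀ c : k, ∃ c' : k, α.symm (algebraMap k F c) = algebraMap k F c' := by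
    intro c
    obtain ⟨c', h, h2⟩ := hα (c ^ (l * l'))
    have h3 : c' = c := by
      have h4 : l * l' = p ^ (n + n') := by rw [hl, hl', pow_add]
      rw [h4] at h2
      exact BSN_inj p _ h2
    refine ⟨c ^ (l * l'), ?_⟩
    rw [h3] at h
    rw [← h, RingEquiv.symm_apply_apply]
  have hτ1 : ∀ c : k, ∃ c' : k, τ.toRingEquiv (algebraMap k F c) = algebraMap k F c' :=
    fun c => ⟨c, τ.commutes c⟩
  have hτ2 : ∀ c : k, ∃ c' : k, τ.toRingEquiv.symm (algebraMap k F c) = algebraMap k F c' :=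
    fun c => ⟨c, τ.symm.commutes c⟩
  obtain ⟨Pa, hPa⟩ := hTPL k F α hα2 P
  obtain ⟨Pt, hPt⟩ := hTPL k F τ.toRingEquiv hτ2 P
  obtain ⟨t, ht, htinj⟩ := hBSE k F hF P (l + 3 * g + 1)
  obtain ⟨lm, hlm⟩ : ∃ lm : ℕ, l' = lm + 1 := ⟨l' - 1, by omega⟩
  -- spaces
  let DV : Place k F →₀ ℤ := Finsupp.single Pa (lm : ℤ)
  let DW : Place k F →₀ ℤ := Finsupp.single Pa ((l * lm : ℕ) : ℤ) +
    Finsupp.single Pt ((l + 3 * g + 1 : ℕ) : ℤ)
  have hfdV : FiniteDimensional k (RR DV) := (hQR1 k F hF).1 DV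
  have hfdW : FiniteDimensional k (RR DW) := (hQR1 k F hF).1 DW
  have htau : ∀ j, τ (t j) ∈ RR (Finsupp.single Pt ((l + 3 * g + 1 : ℕ) : ℤ)) := fun j =>
    BSN_transport hTPL τ.toRingEquiv hτ1 P Pt hPt _ _ (ht j).1
  have hal : ∀ j, α (t j) ∈ RR (Finsupp.single Pa ((l + 3 * g + 1 : ℕ) : ℤ)) := fun j =>
    BSN_transport hTPL α hα1 P Pa hPa _ _ (ht j).1
  have hterm : ∀ (s : F), s ∈ RR DV → ∀ j, s ^ l * τ (t j) ∈ RR DW := by
    intro s hs j
    rw [BSN_mem]
    intro Q
    have h1 := (BSN_mem _ _).1 hs Q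
    have h2 := (BSN_mem _ _).1 (htau j) Q
    have h3 := (h1.pow l).mul h2
    refine h3.mono ?_
    show -((Finsupp.single Pa ((l * lm : ℕ) : ℤ) + Finsupp.single Pt ((l + 3 * g + 1 : ℕ) : ℤ)) Q) ≤
      (l : ℤ) * -(Finsupp.single Pa (lm : ℤ) Q) + -(Finsupp.single Pt ((l + 3 * g + 1 : ℕ) : ℤ) Q)
    rw [Finsupp.add_apply]
    have h4 : (Finsupp.single Pa ((l * lm : ℕ) : ℤ) Q : ℤ) =
        (l : ℤ) * Finsupp.single Pa (lm : ℤ) Q := by
      by_cases hQ : Q = Pa
      · rw [hQ, Finsupp.single_eq_same, Finsupp.single_eq_same]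
        push_cast
        ring
      · rw [Finsupp.single_eq_of_ne hQ, Finsupp.single_eq_of_ne hQ, mul_zero]
    rw [h4]
    linarith
  let Θ : (Fin (ell (Finsupp.single P ((l + 3 * g + 1 : ℕ) : ℤ))) → RR DV) →+ RR DW :=
    { toFun := fun v => ⟨∑ j, ((v j : RR DV) : F) ^ l * τ (t j),
        Submodule.sum_mem _ fun j _ => hterm _ (v j).2 j⟩
      map_zero' := by
        apply Subtype.ext
        show ∑ j, ((0 : F)) ^ l * τ (t j) = 0
        apply Finset.sum_eq_zero
        intro j _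
        rw [zero_pow (by omega), zero_mul]
      map_add' := by
        intro v w
        apply Subtype.ext
        show ∑ j, ((v j : F) + (w j : F)) ^ l * τ (t j) =
          ∑ j, (v j : F) ^ l * τ (t j) + ∑ j, (w j : F) ^ l * τ (t j)
        rw [← Finset.sum_add_distrib]
        apply Finset.sum_congr rfl
        intro j _
        rw [hl, add_pow_char_pow, add_mul] }
  have hΘ : ∀ v, ((Θ v : RR DW) : F) = ∑ j, ((v j : RR DV) : F) ^ l * τ (t j) := fun _ => rfl
  have hsemi : ∀ (c : k) v, Θ (c • v) = iterateFrobeniusEquiv k p n c • Θ v := by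
    intro c v
    apply Subtype.ext
    rw [hΘ, Submodule.coe_smul, hΘ, Finset.smul_sum]
    apply Finset.sum_congr rfl
    intro j _
    show (c • ((v j : RR DV) : F)) ^ l * τ (t j) = _
    have h1 : iterateFrobeniusEquiv k p n c = c ^ l := by
      rw [iterateFrobeniusEquiv_def, hl]
    rw [smul_pow, smul_mul_assoc, h1]
  have hdim : Module.finrank k (RR DW) <
      Module.finrank k (Fin (ell (Finsupp.single P ((l + 3 * g + 1 : ℕ) : ℤ))) → RR DV) := by
    rw [Module.finrank_pi_fintype, Finset.sum_const, Finset.card_univ, Fintype.card_fin, smul_eq_mul]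
    have h1 := (hQR3 k F hF g hg).1 (Finsupp.single P ((l + 3 * g + 1 : ℕ) : ℤ))
    have h2 := (hQR3 k F hF g hg).1 DV
    have h3 := ((hQR1 k F hF).2.2 0 DW (by
      show (0 : Place k F →₀ ℤ) ≤ _
      exact add_nonneg (Finsupp.single_nonneg.2 (by positivity))
        (Finsupp.single_nonneg.2 (by positivity)))).2
    rw [(hQR1 k F hF).2.1] at h3
    have h4 : degD DW = (l : ℤ) * lm + (l + 3 * g + 1) := by
      show degD (_ + _) = _
      rw [BSN_degadd, BSN_deg, BSN_deg]
      push_cast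
      ring
    have h5 : degD (0 : Place k F →₀ ℤ) = 0 := by
      unfold degD
      exact Finsupp.sum_zero_index
    have h6 : degD DV = lm := BSN_deg _ _
    rw [h4, h5] at h3
    rw [BSN_deg] at h1
    rw [h6] at h2
    show ell DW < ell (Finsupp.single P ((l + 3 * g + 1 : ℕ) : ℤ)) * ell DV
    generalize ell DW = w at *
    generalize ell (Finsupp.single P ((l + 3 * g + 1 : ℕ) : ℤ)) = a at *
    generalize ell DV = b at *
    zify
    push_cast at h1 h3
    have hlz : (l' : ℤ) = lm + 1 := by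
      rw [hlm]
      push_cast
      ring
    apply BN2_arith (l : ℤ) l' g w a b lm (by linarith) (by exact_mod_cast hgl)
      (by exact_mod_cast hll2) (by positivity) (by positivity)
    · linarith
    · linarith
    · have := h3
      linarith
  obtain ⟨v, hv0, hv⟩ := hSLK k _ _ (iterateFrobeniusEquiv k p n) Θ hsemi hdim
  have hs : ∀ j, ((v j : RR DV) : F) ∈ RR (Finsupp.single Pa (lm : ℤ)) := fun j => (v j).2
  have hs1 : ∀ j, Pa.Ge (-(lm : ℤ)) ((v j : RR DV) : F) := fun j => ((BSN_single _ _ _).1 (hs j)).1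
  have hs2 : ∀ j, ((v j : RR DV) : F) ∈ Reg Pa := fun j => ((BSN_single _ _ _).1 (hs j)).2
  have ha1 : ∀ j, Pa.Ge (-((l + 3 * g + 1 : ℕ) : ℤ)) (α (t j)) := fun j =>
    ((BSN_single _ _ _).1 (hal j)).1
  have ha2 : ∀ j, α (t j) ∈ Reg Pa := fun j => ((BSN_single _ _ _).1 (hal j)).2
  have hlz : (l' : ℤ) = lm + 1 := by
    rw [hlm]
    push_cast
    ring
  have hGne : ∑ j, ((v j : RR DV) : F) * α (t j) ^ l' ≠ 0 := by
    apply BSN_ne l' (by omega) Pa (fun j => ((v j : RR DV) : F)) (fun j => α (t j) ^ l')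
      (fun j => P.ord (t j)) htinj
    · by_contra hcon
      push Not at hcon
      apply hv0
      funext j
      apply Subtype.ext
      exact hcon j
    · intro j hj
      have h1 := (hs1 j).le hj
      rw [hlz]
      linarith
    · intro j hj
      exact BSN_le_zero hQV4 hQV5 hF Pa _ hj (hs2 j)
    · intro j
      apply pow_ne_zero
      intro h
      exact (ht j).2 ((map_eq_zero_iff α α.injective).1 h)
    · intro j
      have h1 : α (t j) ≠ 0 := by
        intro h
        exact (ht j).2 ((map_eq_zero_iff α α.injective).1 h)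
      show Pa.ord (α (t j) ^ l') = _
      rw [Pa.ord_pow h1, hPa]
  refine ⟨Pa, Pt, _, fun j => ((v j : RR DV) : F), t, hs2, ?_, ?_, ?_, hGne, ?_⟩
  · intro j
    exact ((BSN_single _ _ _).1 (htau j)).2
  · rw [← hΘ, hv]
    rfl
  · exact Subalgebra.sum_mem _ fun j _ => Subalgebra.mul_mem _ (hs2 j) (Subalgebra.pow_mem _ (ha2 j) l')
  · have h1 : Pa.Ge (-((l' : ℤ) * (l + 3 * g + 1) + l' - 1))
        (∑ j, ((v j : RR DV) : F) * α (t j) ^ l') := by
      apply Place.Ge.sum
      intro j _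
      refine ((hs1 j).mul ((ha1 j).pow l')).mono ?_
      push_cast
      rw [hlz]
      linarith
    exact h1.le hGne

end

end Pool.Agent.helper70.QSD
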