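import Pool.Agent.helper70.QSD.SpecB

/-! Row qsd:EVR. -/

set_option autoImplicit false
set_option linter.unusedVariables false

namespace Pool.Agent.helper70.QSD

open Pool.Agent.helper53.AU
open scoped Classical IntermediateField Polynomial

noncomputable section

theorem EVR : EVR_stmt := by
  refine ⟨?_, ?_, ?_⟩
  · intro k F _ _ _ s z
    refine ⟨?_, ?_, ?_, ?_, ?_, ?_⟩
    · intro G H
      exact Polynomial.eval₂_add _ _
    · intro G H
      exact Polynomial.eval₂_sub _
    · intro G H
      exact Polynomial.eval₂_mul _ _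
    · intro h
      exact Polynomial.eval₂_C _ _
    · exact Polynomial.eval₂_X _ _
    · intro c
      unfold ev
      rw [Polynomial.eval₂_C]
      exact Polynomial.aeval_C s c
  · intro k F _ _ _ s w Q G h M hQ hh
    unfold hcomp ev
    rw [Polynomial.eval₂_finsetSum, Polynomial.eval₂_eq_sum_range' _ (Nat.lt_succ_of_le hQ),
      Finset.mul_sum]
    refine Finset.sum_congr rfl fun l hl => ?_
    rw [Finset.mem_range] at hl
    rw [Polynomial.eval₂_mul, Polynomial.eval₂_mul, Polynomial.eval₂_C, Polynomial.eval₂_pow,
      Polynomial.eval₂_pow, Polynomial.eval₂_C]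
    change Polynomial.aeval s (Q.coeff l) * Polynomial.eval₂ _ w G ^ l *
      Polynomial.aeval s h ^ (M - l) = Polynomial.aeval s h ^ M * (Polynomial.aeval s (Q.coeff l) *
        (Polynomial.eval₂ _ w G / Polynomial.aeval s h) ^ l)
    have h1 : Polynomial.aeval s h ^ M = Polynomial.aeval s h ^ (M - l) * Polynomial.aeval s h ^ l := by
      rw [← pow_add, Nat.sub_add_cancel (by omega)]
    rw [h1, div_pow]
    field_simp
  · intro k k' _ _ σ Q G h M
    unfold hcomp mp2
    rw [Polynomial.map_sum]
    refine Finset.sum_congr rfl fun l _ => ?_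
    rw [Polynomial.map_mul, Polynomial.map_mul, Polynomial.map_pow, Polynomial.map_pow,
      Polynomial.map_C, Polynomial.map_C, Polynomial.coeff_map]
    rfl

end

end Pool.Agent.helper70.QSD
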