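import Pool.Agent.helper70.QSD.SpecA

/-! Row qsd:GBD. -/

set_option autoImplicit false
set_option linter.unusedVariables false

namespace Pool.Agent.helper70.QSD

open Pool.Agent.helper53.AU
open scoped Classical IntermediateField Polynomial

noncomputable section

theorem GBD_mem {k F : Type} [Field k] [Field F] [Algebra k F] (D : Place k F →₀ ℤ) (f : F)
    (h : ∀ P : Place k F, P.Ge (-D P) f) : f ∈ RR D := by
  by_cases hf : f = 0
  · exact Or.inl hf
  · exact Or.inr fun P => (h P).le hf

theorem GBD (hQV4 : QV4_stmt) (hQZ3 : QZ3_stmt) (hQR1 : QR1_stmt) (hQR3 : QR3_stmt) : GBD_stmt := by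
  intro k F _ _ _ _ hFF s hs m c hm hdeg u hind hpol g hg
  have hs0 : s ≠ 0 := by
    rintro rfl
    exact hs isAlgebraic_zero
  have hsup := hQV4 k F hFF s hs0
  have hsup' : (Function.support fun P : Place k F => max (-P.ord s) 0).Finite := by
    refine hsup.subset ?_
    intro P hP h0
    apply hP
    change P.ord s = 0 at h0
    change max (-P.ord s) 0 = 0
    rw [h0]
    rfl
  set E : Place k F →₀ ℤ := Finsupp.ofSupportFinite (fun P : Place k F => max (-P.ord s) 0) hsup'
    with hE
  have hEP : ∀ P, E P = max (-P.ord s) 0 := fun P => rfl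
  have hdE : degD E = m := by
    have h1 := (hQZ3 k F hFF s hs).2
    rw [hdeg] at h1
    rw [← h1]
    unfold degD
    rw [finsum_eq_sum_of_support_subset (s := E.support) _ ?_]
    · rfl
    · intro P hP
      rw [Finset.mem_coe, Finsupp.mem_support_iff]
      exact hP
  obtain ⟨_, c₀, hc₀⟩ := hQR3 k F hFF g hg
  obtain ⟨hfd, _, _⟩ := hQR1 k F hFF
  set r : ℕ := max c c₀.toNat with hr
  have hrc : c ≤ r := le_max_left _ _
  have hrc0 : c₀ ≤ r := (Int.self_le_toNat c₀).trans (by exact_mod_cast le_max_right c c₀.toNat)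
  have hdD : degD (r • E) = r * m := by
    unfold degD
    rw [Finsupp.sum_smul_index' (fun _ => rfl)]
    unfold degD at hdE
    rw [← hdE]
    unfold Finsupp.sum
    rw [Finset.mul_sum]
    refine Finset.sum_congr rfl fun P _ => ?_
    change r • E P = (r : ℤ) * E P
    rw [nsmul_eq_mul]
  have hell : (ell (r • E) : ℤ) = r * m + 1 - g := by
    rw [hc₀ (r • E) ?_, hdD]
    rw [hdD]
    have h1 : (1 : ℤ) ≤ m := by exact_mod_cast hm
    have h2 : (0 : ℤ) ≤ r := by positivity
    nlinarith
  have hmem : ∀ x : Fin (r - c + 1) × Fin m, s ^ (x.1 : ℕ) * u x.2 ∈ RR (r • E) := by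
    intro x
    apply GBD_mem
    intro P
    have h1 : P.Ge (-(max (-P.ord s) 0)) s := by
      refine (P.ge_ord s).mono ?_
      have := le_max_left (-P.ord s) 0
      linarith
    have h2 := (h1.pow (x.1 : ℕ)).mul (hpol x.2 P)
    refine h2.mono ?_
    have h3 : (0 : ℤ) ≤ max (-P.ord s) 0 := le_max_right _ _
    have h4 : ((x.1 : ℕ) : ℤ) + c ≤ r := by
      have := x.1.2
      omega
    have h5 : (r • E) P = r * max (-P.ord s) 0 := by
      rw [Finsupp.smul_apply, hEP, nsmul_eq_mul]
    rw [h5]
    nlinarith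
  have hli : LinearIndependent k (fun x : Fin (r - c + 1) × Fin m =>
      (⟨s ^ (x.1 : ℕ) * u x.2, hmem x⟩ : RR (r • E))) := by
    rw [Fintype.linearIndependent_iff]
    intro a ha
    set φ : Fin m → k[X] := fun i => ∑ j : Fin (r - c + 1), Polynomial.monomial (j : ℕ) (a (j, i))
      with hφ
    have h1 : ∑ i, Polynomial.aeval s (φ i) * u i = 0 := by
      have h2 := congrArg Subtype.val ha
      rw [Fintype.sum_prod_type_right] at h2
      simp only [AddSubmonoidClass.coe_finsetSum, Submodule.coe_smul, Submodule.coe_zero] at h2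
      rw [← h2]
      refine Finset.sum_congr rfl fun i _ => ?_
      rw [hφ]
      simp only [map_sum, Polynomial.aeval_monomial, Finset.sum_mul]
      refine Finset.sum_congr rfl fun j _ => ?_
      rw [Algebra.smul_def]
      ring
    have h3 := hind φ h1
    rintro ⟨j, i⟩
    have h4 := congrArg (fun p => p.coeff (j : ℕ)) (h3 i)
    rw [hφ] at h4
    simp only [Polynomial.finsetSum_coeff, Polynomial.coeff_monomial, Polynomial.coeff_zero] at h4
    rw [Finset.sum_eq_single j] at h4
    · simpa using h4
    · intro b _ hb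
      rw [if_neg]
      intro h
      exact hb (Fin.ext h)
    · intro h
      exact absurd (Finset.mem_univ _) h
  have hfd' := hfd (r • E)
  have hcard := hli.fintype_card_le_finrank
  rw [Fintype.card_prod, Fintype.card_fin, Fintype.card_fin] at hcard
  have h1 : (((r - c + 1) * m : ℕ) : ℤ) ≤ r * m + 1 - g := by
    rw [← hell]
    exact_mod_cast hcard
  have h2 : ((r - c + 1 : ℕ) : ℤ) = r - c + 1 := by
    push_cast [Nat.cast_sub hrc]
    ring
  rw [Nat.cast_mul, h2] at h1
  have h3 : (0 : ℤ) ≤ m := by positivity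
  have h4 : (g : ℤ) ≤ m * c + 1 := by nlinarith
  exact_mod_cast h4

end

end Pool.Agent.helper70.QSD
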