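import Pool.Agent.helper70.QSD.SpecB

/-! Row qsd:SML. -/

set_option autoImplicit false
set_option linter.unusedVariables false

namespace Pool.Agent.helper70.QSD

open Pool.Agent.helper53.AU
open scoped Classical IntermediateField Polynomial

noncomputable section

theorem SML_surj {k F : Type} [Field k] [Field F] [Algebra k F] (s : F) (σ : k ≃+* k)
    (hfd : FiniteDimensional k⟮s⟯ F) (α : F →+* F)
    (h1 : ∀ c : k, α (algebraMap k F c) = algebraMap k F (σ c)) (h2 : α s = s) :
    Function.Surjective α := by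
  have hb : ∀ x ∈ k⟮s⟯, ∃ y ∈ k⟮s⟯, α y = x := by
    intro x hx
    induction hx using IntermediateField.adjoin_induction with
    | mem x hx =>
      rw [Set.mem_singleton_iff.1 hx]
      exact ⟨s, IntermediateField.mem_adjoin_simple_self k s, h2⟩
    | algebraMap a =>
      exact ⟨algebraMap k F (σ.symm a), IntermediateField.algebraMap_mem _ _, by rw [h1]; simp⟩
    | add x y _ _ hx hy =>
      obtain ⟨x', hx', hx2⟩ := hx
      obtain ⟨y', hy', hy2⟩ := hy
      exact ⟨x' + y', add_mem hx' hy', by rw [map_add, hx2, hy2]⟩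
    | inv x _ hx =>
      obtain ⟨x', hx', hx2⟩ := hx
      exact ⟨x'⁻¹, inv_mem hx', by rw [map_inv₀, hx2]⟩
    | mul x y _ _ hx hy =>
      obtain ⟨x', hx', hx2⟩ := hx
      obtain ⟨y', hy', hy2⟩ := hy
      exact ⟨x' * y', mul_mem hx' hy', by rw [map_mul, hx2, hy2]⟩
  choose g hg hg2 using hb
  let b := Module.finBasis k⟮s⟯ F
  have hli : LinearIndependent k⟮s⟯ (fun i => α (b i)) := by
    rw [Fintype.linearIndependent_iff]
    intro c hc i
    have h3 : α (∑ i, (⟨g (c i) (c i).2, hg _ _⟩ : k⟮s⟯) • b i) = 0 := by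
      rw [map_sum, ← hc]
      refine Finset.sum_congr rfl fun j _ => ?_
      rw [Algebra.smul_def, map_mul]
      change α (g (c j) (c j).2) * α (b j) = _
      rw [hg2]
      rfl
    have h4 := (map_eq_zero_iff α α.injective).1 h3
    have h5 := Fintype.linearIndependent_iff.1 b.linearIndependent _ h4 i
    have h6 : g (c i) (c i).2 = 0 := congrArg Subtype.val h5
    have h7 := hg2 (c i) (c i).2
    rw [h6, map_zero] at h7
    exact Subtype.ext h7.symm
  have hsp := hli.span_eq_top_of_card_eq_finrank' (by rw [Fintype.card_fin])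
  intro f
  have hf : f ∈ Submodule.span k⟮s⟯ (Set.range fun i => α (b i)) := by
    rw [hsp]
    exact Submodule.mem_top
  rw [Submodule.mem_span_range_iff_exists_fun] at hf
  obtain ⟨c, hc⟩ := hf
  refine ⟨∑ i, (⟨g (c i) (c i).2, hg _ _⟩ : k⟮s⟯) • b i, ?_⟩
  rw [map_sum, ← hc]
  refine Finset.sum_congr rfl fun j _ => ?_
  rw [Algebra.smul_def, map_mul]
  change α (g (c j) (c j).2) * α (b j) = _
  rw [hg2]
  rfl

theorem SML : SML_stmt := by
  intro k F _ _ _ s z w P σ hP hs hfd hker hfrac hw
  have hz : Polynomial.eval₂ ((Polynomial.aeval s : k[X] →ₐ[k] F) : k[X] →+* F) z P = 0 :=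
    (hker P).2 dvd_rfl
  let θ : k[X] →+* F := ((Polynomial.aeval s : k[X] →ₐ[k] F) : k[X] →+* F)
  let θ' : k[X] →+* F := θ.comp (Polynomial.mapRingHom (σ : k →+* k))
  have hw' : Polynomial.eval₂ θ' w P = 0 := by
    have h1 : ev s w (mp2 (σ : k →+* k) P) = Polynomial.eval₂ θ' w P := by
      unfold ev mp2
      rw [Polynomial.eval₂_map]
    rw [← h1, hw]
  let ι : AdjoinRoot P →+* F := AdjoinRoot.lift θ z hz
  have hι : Function.Injective ι := by
    rw [injective_iff_map_eq_zero]
    intro x hx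
    obtain ⟨G, rfl⟩ := AdjoinRoot.mk_surjective x
    have h1 : ι (AdjoinRoot.mk P G) = ev s z G := AdjoinRoot.lift_mk hz G
    rw [h1] at hx
    exact AdjoinRoot.mk_eq_zero.2 ((hker G).1 hx)
  have hdom : IsDomain (AdjoinRoot P) := hι.isDomain ι
  let α₀ : AdjoinRoot P →+* F := AdjoinRoot.lift θ' w hw'
  have hfin : Module.Finite k[X] (AdjoinRoot P) := hP.finite_adjoinRoot
  have hα₀ : Function.Injective α₀ := by
    rw [injective_iff_map_eq_zero]
    intro x hx
    by_contra hne
    have hint : IsIntegral k[X] x := Algebra.IsIntegral.isIntegral x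
    have h1 := Ideal.comap_ne_bot_of_integral_mem (I := RingHom.ker α₀) hne hx hint
    apply h1
    rw [eq_bot_iff]
    intro h hh
    rw [Ideal.mem_comap] at hh
    have h2 : α₀ (AdjoinRoot.of P h) = 0 := hh
    have h3 : α₀ (AdjoinRoot.of P h) = θ' h := AdjoinRoot.lift_of hw'
    rw [h3] at h2
    have h4 : h.map (σ : k →+* k) = 0 := by
      by_contra h5
      exact hs ⟨_, h5, h2⟩
    rw [Ideal.mem_bot]
    exact (Polynomial.map_eq_zero_iff (σ : k →+* k).injective).1 h4
  let alg : Algebra (AdjoinRoot P) F := ι.toAlgebra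
  have halg : ∀ x, algebraMap (AdjoinRoot P) F x = ι x := fun _ => rfl
  have : FaithfulSMul (AdjoinRoot P) F := (faithfulSMul_iff_algebraMap_injective _ _).2 hι
  have hfr : IsFractionRing (AdjoinRoot P) F := by
    apply IsFractionRing.of_field
    intro f
    obtain ⟨G, h, hh, hf⟩ := hfrac f
    refine ⟨AdjoinRoot.mk P G, AdjoinRoot.of P h, ?_⟩
    have h1 : ι (AdjoinRoot.mk P G) = ev s z G := AdjoinRoot.lift_mk hz G
    have h2 : ι (AdjoinRoot.of P h) = Polynomial.aeval s h := AdjoinRoot.lift_of hz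
    have h3 : Polynomial.aeval s h ≠ 0 := fun h0 => hs ⟨h, hh, h0⟩
    rw [halg, halg, h1, h2, ← hf]
    field_simp
  let α : F →+* F := IsFractionRing.lift (A := AdjoinRoot P) hα₀
  have hα : ∀ x, α (ι x) = α₀ x := fun x => IsFractionRing.lift_algebraMap hα₀ x
  have e1 : ∀ h : k[X], α (Polynomial.aeval s h) = θ' h := by
    intro h
    have h2 : ι (AdjoinRoot.of P h) = Polynomial.aeval s h := AdjoinRoot.lift_of hz
    rw [← h2, hα]
    exact AdjoinRoot.lift_of hw'
  have e2 : ∀ c : k, α (algebraMap k F c) = algebraMap k F (σ c) := by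
    intro c
    have := e1 (Polynomial.C c)
    rw [Polynomial.aeval_C] at this
    rw [this]
    change Polynomial.aeval s ((Polynomial.C c).map (σ : k →+* k)) = _
    rw [Polynomial.map_C, Polynomial.aeval_C]
    rfl
  have e3 : α s = s := by
    have := e1 Polynomial.X
    rw [Polynomial.aeval_X] at this
    rw [this]
    change Polynomial.aeval s ((Polynomial.X : k[X]).map (σ : k →+* k)) = _
    rw [Polynomial.map_X, Polynomial.aeval_X]
  have e4 : α z = w := by
    have h2 : ι (AdjoinRoot.root P) = z := AdjoinRoot.lift_root hz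
    rw [← h2, hα]
    exact AdjoinRoot.lift_root hw'
  have hbij : Function.Bijective α := ⟨α.injective, SML_surj s σ hfd α e2 e3⟩
  exact ⟨RingEquiv.ofBijective α hbij, e2, e3, e4⟩

end

end Pool.Agent.helper70.QSD
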