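import Pool.Agent.helper70.QSD.SpecA

/-! Row qsd:STB. -/

set_option autoImplicit false
set_option linter.unusedVariables false

namespace Pool.Agent.helper70.QSD

open Pool.Agent.helper53.AU
open scoped Classical IntermediateField Polynomial

noncomputable section

theorem STB_fix {k F : Type} [Field k] [Field F] [Algebra k F] (τ : F ≃ₐ[k] F) (s z : F)
    (h1 : τ s = s) (h2 : τ z = z) (hg : IntermediateField.adjoin k⟮s⟯ ({z} : Set F) = ⊤) :
    τ = 1 := by
  have hb : ∀ x ∈ k⟮s⟯, τ x = x := by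
    intro x hx
    induction hx using IntermediateField.adjoin_induction with
    | mem x hx => rw [Set.mem_singleton_iff.1 hx, h1]
    | algebraMap a => exact τ.commutes a
    | add x y _ _ hx hy => rw [map_add, hx, hy]
    | inv x _ hx => rw [map_inv₀, hx]
    | mul x y _ _ hx hy => rw [map_mul, hx, hy]
  ext x
  have hx : x ∈ IntermediateField.adjoin k⟮s⟯ ({z} : Set F) := by
    rw [hg]
    exact IntermediateField.mem_top
  change τ x = x
  induction hx using IntermediateField.adjoin_induction with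
  | mem x hx => rw [Set.mem_singleton_iff.1 hx, h2]
  | algebraMap a => exact hb a a.2
  | add x y _ _ hx hy => rw [map_add, hx, hy]
  | inv x _ hx => rw [map_inv₀, hx]
  | mul x y _ _ hx hy => rw [map_mul, hx, hy]

theorem STB_ev {k F : Type} [Field k] [Field F] [Algebra k F] (τ : F ≃ₐ[k] F) (s z : F)
    (h1 : τ s = s) (a : k[X][X]) (h : ev s z a = 0) : ev s (τ z) a = 0 := by
  have h2 : τ (ev s z a) = ev s (τ z) a := by
    unfold ev
    have h3 := Polynomial.hom_eval₂ a
      ((Polynomial.aeval s : k[X] →ₐ[k] F) : k[X] →+* F) ((τ : F →ₐ[k] F) : F →+* F) z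
    have h4 : ((τ : F →ₐ[k] F) : F →+* F).comp ((Polynomial.aeval s : k[X] →ₐ[k] F) : k[X] →+* F) =
        ((Polynomial.aeval s : k[X] →ₐ[k] F) : k[X] →+* F) := by
      ext x
      · simp
      · simpa using h1
    rw [h4] at h3
    exact h3
  rw [← h2, h, map_zero]

theorem STB (hQV1 : QV1_stmt) (hDGH : DGH_stmt) (hINT : INT_stmt) (hZCT : ZCT_stmt) : STB_stmt := by
  intro d k F _ _ _ _ s z hcov m hdeg S hS
  obtain ⟨m', hm1, hmd, hdeg', hcard, hind⟩ := hDGH d k F s z hcov
  have hmm : m' = m := by rw [← hdeg', hdeg]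
  subst hmm
  obtain ⟨a, ha, had, hac, haz⟩ := hcov.eq
  have hFF := hcov.ff
  have hs := hcov.tr
  have hint := hINT k F s z d a ha hac haz
  have hfin : {τ : F ≃ₐ[k] F | τ s = s}.Finite := by
    have h0 : Finite {τ : F ≃ₐ[k] F // τ s = s} := Nat.finite_of_card_ne_zero (by omega)
    exact Set.finite_coe_iff.1 h0
  set Hf : Finset (F ≃ₐ[k] F) := hfin.toFinset with hHf
  have hmem : ∀ τ : F ≃ₐ[k] F, τ ∈ Hf ↔ τ s = s := by
    intro τ
    rw [hHf, Set.Finite.mem_toFinset]
    rfl
  have hHc : Hf.card = m' := by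
    rw [← hcard, hHf]
    exact (Nat.card_eq_card_finite_toFinset hfin).symm
  have hsub : S ⊆ (Hf.filter (fun τ => τ ≠ 1)).biUnion (fun τ => S.filter (fun P => τ • P = P)) := by
    intro P hP
    obtain ⟨h1, τ, h2, h3, h4⟩ := hS P hP
    rw [Finset.mem_biUnion]
    exact ⟨τ, Finset.mem_filter.2 ⟨(hmem τ).2 h2, h3⟩, Finset.mem_filter.2 ⟨hP, h4⟩⟩
  have hbd : ∀ τ ∈ Hf.filter (fun τ => τ ≠ 1), (S.filter (fun P => τ • P = P)).card ≤ d * m' := by
    intro τ hτ
    rw [Finset.mem_filter, hmem] at hτ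
    obtain ⟨h1, h2⟩ := hτ
    have hz : τ z ≠ z := fun h => h2 (STB_fix τ s z h1 h hcov.gen)
    have hint' := hINT k F s (τ z) d a ha hac (STB_ev τ s z h1 a haz)
    have h3 := hZCT k F hFF s hs d (τ z - z) (sub_ne_zero.2 hz)
      (fun P => ((hint' P).2).sub ((hint P).2)) (S.filter (fun P => τ • P = P)) ?_
    · rw [hdeg] at h3
      exact_mod_cast h3
    · intro P hP
      rw [Finset.mem_filter] at hP
      obtain ⟨h4, h5⟩ := hP
      have h6 := (hS P h4).1
      obtain ⟨b, hb⟩ := hQV1 k F hFF P z ((hint P).1 h6)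
      have h7 := (smul_ge τ P 1 _).2 hb
      rw [h5, map_sub, AlgEquiv.commutes] at h7
      have h8 := h7.sub hb
      rwa [sub_sub_sub_cancel_right] at h8
  have h1 : S.card ≤ m' * (d * m') := by
    refine (Finset.card_le_card hsub).trans (Finset.card_biUnion_le.trans ?_)
    refine (Finset.sum_le_sum hbd).trans ?_
    rw [Finset.sum_const, smul_eq_mul]
    apply Nat.mul_le_mul_right
    rw [← hHc]
    exact Finset.card_filter_le _ _
  exact_mod_cast h1

end

end Pool.Agent.helper70.QSD
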