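import Pool.Agent.helper70.QSD.SpecA

/-! Row qsd:UC1 (adapted from helper40/MX/CNT.lean). -/

set_option autoImplicit false
set_option linter.unusedVariables false

namespace Pool.Agent.helper70.QSD

open Pool.Agent.helper53.AU
open scoped Classical IntermediateField Polynomial

noncomputable section

/-- a place lies over at most one constant -/
theorem UC1_uniq {k F : Type} [Field k] [Field F] [Algebra k F] (P : Place k F) (s : F) (c c' : k)
    (h : P.Ge 1 (s - algebraMap k F c)) (h' : P.Ge 1 (s - algebraMap k F c')) : c = c' := by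
  by_contra hne
  have h1 : P.Ge 1 (algebraMap k F (c' - c)) := by
    have h2 := h.sub h'
    have h3 : s - algebraMap k F c - (s - algebraMap k F c') = algebraMap k F (c' - c) := by
      rw [map_sub]; ring
    rwa [h3] at h2
  have hc : c' - c ≠ 0 := sub_ne_zero.2 (Ne.symm hne)
  have h2 := h1.le ((map_ne_zero (algebraMap k F)).2 hc)
  rw [P.ord_const _ hc] at h2
  omega

/-- an automorphism over `k(s)` maps the places over `c` to places over `c` -/
theorem UC1_smul {k F : Type} [Field k] [Field F] [Algebra k F] (P : Place k F) (s : F) (c : k)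
    (τ : F ≃ₐ[k] F) (hτ : τ s = s) (h : P.Ge 1 (s - algebraMap k F c)) :
    (τ • P).Ge 1 (s - algebraMap k F c) := by
  have h1 : τ (s - algebraMap k F c) = s - algebraMap k F c := by
    rw [map_sub, hτ, AlgEquiv.commutes]
  rw [← h1]
  exact (smul_ge τ P 1 _).2 h

/-- constants with `c ^ (2 ^ N) = c` are fixed by the automorphism -/
theorem UC1_const {k F : Type} [Field k] [CharP k 2] [Field F] [Algebra k F] (N : ℕ) (α : F ≃+* F)
    (hα : InvFr k (2 ^ N) α) (c : k) (hc : c ^ 2 ^ N = c) :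
    α (algebraMap k F c) = algebraMap k F c := by
  obtain ⟨c', h1, h2⟩ := hα c
  have : Fact (Nat.Prime 2) := ⟨Nat.prime_two⟩
  have h3 : (c' - c) ^ (2 ^ N) = 0 := by
    rw [sub_pow_char_pow, h2, hc, sub_self]
  have h5 : c' - c = 0 := by
    by_contra h
    exact pow_ne_zero _ h h3
  rw [h1, sub_eq_zero.1 h5]

theorem UC1 (hCN1 : MX.CN1_stmt) (hTPL : MX.TPL_stmt) : UC1_stmt := by
  intro k F _ _ _ _ _ hFF s hs hG m hm hm1 N α hα hαs R hR hst
  obtain ⟨hfin, hov⟩ := hCN1 k F hFF s hs hG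
  choose pl hpl using fun c => (hov c).1
  have htr := fun c => (hov c).2
  set Hf : Finset (F ≃ₐ[k] F) := hfin.toFinset with hHf
  have hmem : ∀ τ : F ≃ₐ[k] F, τ ∈ Hf ↔ τ s = s := by
    intro τ
    rw [hHf, Set.Finite.mem_toFinset]
    rfl
  have hHc : Hf.card = m := by
    rw [← hm, hHf]
    exact (Nat.card_eq_card_finite_toFinset hfin).symm
  set T : Finset (Place k F) := (R ×ˢ Hf).image (fun x => x.2 • pl x.1) with hT
  refine ⟨T, ?_, ?_, ?_⟩
  · rw [hT, Finset.card_image_of_injOn, Finset.card_product, hHc, mul_comm]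
    rintro ⟨c, τ⟩ hx ⟨c', τ'⟩ hx' hxx
    rw [Finset.mem_coe, Finset.mem_product] at hx hx'
    obtain ⟨hc, hτ⟩ := hx
    obtain ⟨hc', hτ'⟩ := hx'
    dsimp only at hc hτ hc' hτ' hxx
    have e1 := UC1_smul (pl c) s c τ ((hmem τ).1 hτ) (hpl c)
    have e2 := UC1_smul (pl c') s c' τ' ((hmem τ').1 hτ') (hpl c')
    rw [hxx] at e1
    have hcc : c = c' := UC1_uniq _ s c c' e1 e2
    subst hcc
    have e3 : (τ'⁻¹ * τ) • pl c = pl c := by
      rw [mul_smul, hxx, ← mul_smul, inv_mul_cancel, one_smul]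
    have e4 : (τ'⁻¹ * τ) s = s := by
      rw [AlgEquiv.mul_apply, (hmem τ).1 hτ]
      have := (hmem τ').1 hτ'
      calc τ'⁻¹ s = τ'⁻¹ (τ' s) := by rw [this]
        _ = s := τ'.symm_apply_apply s
    have e5 := hst c hc (pl c) (hpl c) _ e4 e3
    have e6 : τ = τ' := by
      rw [inv_mul_eq_one] at e5
      exact e5.symm
    rw [e6]
  · intro y hy
    rw [hT, Finset.mem_image] at hy
    obtain ⟨⟨c, τ⟩, hx, rfl⟩ := hy
    rw [Finset.mem_product] at hx
    obtain ⟨hc, hτ⟩ := hx
    exact ⟨c, hc, UC1_smul (pl c) s c τ ((hmem τ).1 hτ) (hpl c)⟩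
  · intro y hy
    rw [hT, Finset.mem_image] at hy
    obtain ⟨⟨c, τ⟩, hx, rfl⟩ := hy
    rw [Finset.mem_product] at hx
    obtain ⟨hc, hτ⟩ := hx
    dsimp only at hc hτ ⊢
    have hcR : c ^ 2 ^ N = c := hR c hc
    have hyc := UC1_smul (pl c) s c τ ((hmem τ).1 hτ) (hpl c)
    obtain ⟨P', hP'⟩ := hTPL k F α.symm (fun c => by
      obtain ⟨c', h1, _⟩ := hα c
      exact ⟨c', h1⟩) (τ • pl c)
    have hP2 : ∀ f : F, P'.ord f = (τ • pl c).ord (α f) := by
      intro f
      have := hP' (α f)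
      rwa [RingEquiv.symm_apply_apply] at this
    have hfix : α (s - algebraMap k F c) = s - algebraMap k F c := by
      rw [map_sub, hαs, UC1_const N α hα c hcR]
    have hP3 : P'.Ge 1 (s - algebraMap k F c) := by
      rcases hyc with h | h
      · exact Or.inl h
      · refine Or.inr ?_
        rw [hP2, hfix]
        exact h
    obtain ⟨σ, hσ, hσP⟩ := htr c (τ • pl c) P' hyc hP3
    refine ⟨σ⁻¹, ?_, ?_⟩
    · calc σ⁻¹ s = σ⁻¹ (σ s) := by rw [hσ]
        _ = s := σ.symm_apply_apply s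
    · intro f
      rw [← hP2, hσP]
      rfl

end

end Pool.Agent.helper70.QSD
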