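import Pool.Agent.helper70.QSD.SpecA

/-! Row qsd:UCN. -/

set_option autoImplicit false
set_option linter.unusedVariables false

namespace Pool.Agent.helper70.QSD

open Pool.Agent.helper53.AU
open scoped Classical IntermediateField Polynomial

noncomputable section

/-- a place lies over at most one constant -/
theorem UCN_uniq {k F : Type} [Field k] [Field F] [Algebra k F] (P : Place k F) (s : F) (c c' : k)
    (h : P.Ge 1 (s - algebraMap k F c)) (h' : P.Ge 1 (s - algebraMap k F c')) : c = c' := by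
  by_contra hne
  have h1 : P.Ge 1 (algebraMap k F (c' - c)) := by
    have h2 := h.sub h'
    have h3 : s - algebraMap k F c - (s - algebraMap k F c') = algebraMap k F (c' - c) := by
      rw [map_sub]; ring
    rwa [h3] at h2
  have hc : c' - c ≠ 0 := sub_ne_zero.2 (Ne.symm hne)
  have h2 := h1.le ((map_ne_zero (algebraMap k F)).2 hc)
  rw [P.ord_const _ hc] at h2
  omega

theorem UCN_ge0 {k F : Type} [Field k] [Field F] [Algebra k F] (P : Place k F) (s : F) (c : k)
    (h : P.Ge 1 (s - algebraMap k F c)) : P.Ge 0 s := by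
  have h1 := (h.mono (by norm_num : (0 : ℤ) ≤ 1)).add (P.ge_const c)
  rwa [sub_add_cancel] at h1

theorem UCN_aeval {k F : Type} [Field k] [Field F] [Algebra k F] (P : Place k F) (s : F)
    (h : P.Ge 0 s) (q : k[X]) : P.Ge 0 (Polynomial.aeval s q) := by
  induction q using Polynomial.induction_on' with
  | add p q hp hq => rw [map_add]; exact hp.add hq
  | monomial n a =>
    rw [Polynomial.aeval_monomial]
    have h1 := (P.ge_const a).mul (h.pow n)
    simpa using h1

/-- the value of `D(s)` at a place over `c` -/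
theorem UCN_val {k F : Type} [Field k] [Field F] [Algebra k F] (P : Place k F) (s : F) (c : k)
    (h : P.Ge 1 (s - algebraMap k F c)) (D : k[X]) (hD : D.eval c ≠ 0) :
    P.ord (Polynomial.aeval s D) = 0 := by
  obtain ⟨E, hE⟩ := Polynomial.X_sub_C_dvd_sub_C_eval (a := c) (p := D)
  have h1 : Polynomial.aeval s D = algebraMap k F (D.eval c) +
      (s - algebraMap k F c) * Polynomial.aeval s E := by
    have h2 := congrArg (Polynomial.aeval s) hE
    rw [map_sub, map_mul, map_sub, Polynomial.aeval_X, Polynomial.aeval_C,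
      Polynomial.aeval_C] at h2
    rw [← h2]
    ring
  have h3 : P.Ge 1 ((s - algebraMap k F c) * Polynomial.aeval s E) := by
    have := h.mul (UCN_aeval P s (UCN_ge0 P s c h) E)
    simpa using this
  have h4 := (Place.ord_add_eq (P := P) (f := algebraMap k F (D.eval c))
    ((map_ne_zero (algebraMap k F)).2 hD) (g := (s - algebraMap k F c) * Polynomial.aeval s E)
    (by rw [P.ord_const _ hD]; simpa using h3)).2
  rw [h1, h4, P.ord_const _ hD]

/-- arithmetic -/
theorem UCN_arith (d m g q r b t l : ℕ) (hm1 : 1 ≤ m) (hmd : m ≤ d) (hg : g ≤ m * (d * d) + 1)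
    (hl : 10 * (d + 2) ^ 6 < l) (hq : l * l ≤ q) (hr : q ≤ r + m * (d * m))
    (hb : b ≤ d * m) (ht : t = m * r)
    (h2 : (t : ℤ) ≤ b + ((m : ℤ) - 1) * ((q : ℤ) + (3 * g + 2) * l + 1)) : False := by
  have hd1 : 1 ≤ d := hm1.trans hmd
  have e1 : m * (d * m) ≤ d * (d * d) := by gcongr
  have e2 : g ≤ d * (d * d) + 1 := hg.trans (by gcongr)
  have e3 : d * m ≤ d * d := by gcongr
  have f1 : (m : ℤ) * q ≤ t + m * (d * (d * d)) := by
    rw [ht]
    push_cast
    have : (q : ℤ) ≤ r + d * (d * d) := by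
      have := hr.trans (by gcongr : r + m * (d * m) ≤ r + d * (d * d))
      exact_mod_cast this
    nlinarith
  have f2 : (b : ℤ) ≤ d * d := by exact_mod_cast hb.trans e3
  have f3 : (g : ℤ) ≤ d * (d * d) + 1 := by exact_mod_cast e2
  have f4 : (l : ℤ) * l ≤ q := by exact_mod_cast hq
  have f5 : (10 : ℤ) * (d + 2) ^ 6 < l := by exact_mod_cast hl
  have g1 : (1 : ℤ) ≤ m := by exact_mod_cast hm1
  have g2 : (m : ℤ) ≤ d := by exact_mod_cast hmd
  have g3 : (1 : ℤ) ≤ d := by exact_mod_cast hd1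
  have g0 : (0 : ℤ) ≤ g := by positivity
  have gl : (0 : ℤ) ≤ l := by positivity
  -- q ≤ b + m d^3 + (m-1)((3g+2) l + 1)
  have k1 : (q : ℤ) ≤ b + m * (d * (d * d)) + ((m : ℤ) - 1) * ((3 * g + 2) * l + 1) := by nlinarith
  have k2 : (m : ℤ) * (d * (d * d)) ≤ d * (d * (d * d)) := by
    apply mul_le_mul_of_nonneg_right g2 (by positivity)
  have k3 : ((m : ℤ) - 1) * ((3 * g + 2) * l + 1) ≤ d * ((3 * (d * (d * d) + 1) + 2) * l + 1) := by
    apply mul_le_mul (by linarith) _ (by positivity) (by positivity)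
    have : (3 * (g : ℤ) + 2) * l ≤ (3 * (d * (d * d) + 1) + 2) * l := by
      apply mul_le_mul_of_nonneg_right (by linarith) gl
    linarith
  have k4 : (l : ℤ) * l ≤ d * d + d * (d * (d * d)) + d * ((3 * (d * (d * d) + 1) + 2) * l + 1) := by
    linarith
  have hd2 : (1 : ℤ) ≤ (d + 2 : ℤ) := by linarith
  have hp : ∀ n : ℕ, n ≤ 6 → (d : ℤ) ^ n ≤ (d + 2) ^ 6 := by
    intro n hn
    calc (d : ℤ) ^ n ≤ (d + 2) ^ n := by gcongr; linarith
      _ ≤ (d + 2) ^ 6 := pow_le_pow_right₀ hd2 hn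
  have p1 := hp 1 (by norm_num)
  have p2 := hp 2 (by norm_num)
  have p4 := hp 4 (by norm_num)
  have hl1 : (1 : ℤ) ≤ l := by
    have : (0 : ℤ) ≤ (d + 2) ^ 6 := by positivity
    linarith
  set Q : ℤ := (d + 2) ^ 6 with hQ
  have q1 : (d : ℤ) * d ≤ Q * l := by
    have : (0 : ℤ) ≤ Q := by positivity
    nlinarith
  have q2 : (d : ℤ) * (d * (d * d)) ≤ Q * l := by
    have : (0 : ℤ) ≤ Q := by positivity
    nlinarith
  have q3 : (d : ℤ) * ((3 * (d * (d * d) + 1) + 2) * l + 1) ≤ 8 * Q * l + l := by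
    have : (0 : ℤ) ≤ Q := by positivity
    have a1 : (d : ℤ) * (3 * (d * (d * d) + 1) + 2) ≤ 8 * Q := by nlinarith
    have a2 := mul_le_mul_of_nonneg_right a1 gl
    have a3 : (d : ℤ) ≤ l := by linarith [p1, pow_one (d : ℤ)]
    nlinarith
  nlinarith

theorem UCN (hQR2 : QR2_stmt) (hDGH : DGH_stmt) (hINT : INT_stmt) (hZCT : ZCT_stmt) (hSTB : STB_stmt)
    (hGBD : GBD_stmt) (hBB2 : BB2_stmt) (hUC1 : UC1_stmt) (hRT2 : RT2_stmt)
    (hCN1 : MX.CN1_stmt) : UCN_stmt := by
  intro d
  refine ⟨2 * (10 * (d + 2) ^ 6 + 2 * ((d * (d * d) + 1) ^ 2 + 3 * (d * (d * d) + 1) + 1) + 2), ?_⟩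
  intro N hN k F _ _ _ _ _ s z hcov α hα hαs D hD hDd
  by_contra hcon
  obtain ⟨m, hm1, hmd, hdeg, hcard, hind⟩ := hDGH d k F s z hcov
  obtain ⟨a, ha, had, hac, haz⟩ := hcov.eq
  have hFF := hcov.ff
  have hs := hcov.tr
  have hG := hcov.gal
  obtain ⟨hfin, hov⟩ := hCN1 k F hFF s hs hG
  obtain ⟨g, hg⟩ := hQR2 k F hFF
  have hint := hINT k F s z d a ha hac haz
  -- the genus
  have hgb : g ≤ m * (d * d) + 1 := by
    refine hGBD k F hFF s hs m (d * d) hm1 hdeg (fun i => z ^ (i : ℕ)) hind ?_ g hg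
    intro i P
    have h1 := ((hint P).2).pow (i : ℕ)
    refine h1.mono ?_
    have h2 : (0 : ℤ) ≤ max (-P.ord s) 0 := le_max_right _ _
    have h3 : ((i : ℕ) : ℤ) ≤ d := by
      have := i.2
      exact_mod_cast (this.le.trans hmd)
    have h4 : (0 : ℤ) ≤ (d : ℤ) * max (-P.ord s) 0 := by positivity
    push_cast
    nlinarith
  -- the numbers
  set e : ℕ := N / 2 with he
  set l' : ℕ := 2 ^ e with hl'
  set l : ℕ := 2 ^ (N - e) with hl
  have hNe : N - e = e ∨ N - e = e + 1 := by omega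
  have hll : l * l' = 2 ^ N := by
    rw [hl, hl', ← pow_add]
    congr 1
    omega
  have hl2 : l ≤ 2 * l' := by
    rw [hl, hl']
    rcases hNe with h | h
    · rw [h]; omega
    · rw [h, pow_succ]; omega
  have hl3 : l' ≤ l := by
    rw [hl, hl']
    exact Nat.pow_le_pow_right (by norm_num) (by omega)
  have heL : 10 * (d + 2) ^ 6 + 2 * ((d * (d * d) + 1) ^ 2 + 3 * (d * (d * d) + 1) + 1) + 2 ≤ e := by
    rw [he]
    omega
  have hel : e < l' := Nat.lt_two_pow_self
  have hbig : 10 * (d + 2) ^ 6 < l' := by omega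
  have hgl : g ^ 2 + 3 * g + 1 < l' := by
    have h1 : g ≤ d * (d * d) + 1 := hgb.trans (by gcongr)
    have h2 : g ^ 2 + 3 * g + 1 ≤ (d * (d * d) + 1) ^ 2 + 3 * (d * (d * d) + 1) + 1 := by gcongr
    omega
  have hN1 : 1 ≤ N := by omega
  obtain ⟨R₀, hR₀c, hR₀⟩ := hRT2 k N hN1
  -- the good constants
  set R : Finset k := R₀.filter (fun c => ∀ P : Place k F, P.Ge 1 (s - algebraMap k F c) →
    ∀ τ : F ≃ₐ[k] F, τ s = s → τ • P = P → τ = 1) with hR
  have hRsub : R ⊆ R₀ := Finset.filter_subset _ _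
  have hbad : ∀ c : k, ∃ P : Place k F, c ∈ R₀ \ R → P.Ge 1 (s - algebraMap k F c) ∧
      ∃ τ : F ≃ₐ[k] F, τ s = s ∧ τ ≠ 1 ∧ τ • P = P := by
    intro c
    by_cases hc : c ∈ R₀ \ R
    · rw [Finset.mem_sdiff, hR, Finset.mem_filter, not_and] at hc
      have h1 := hc.2 hc.1
      push Not at h1
      obtain ⟨P, hP, τ, h2, h3, h4⟩ := h1
      exact ⟨P, fun _ => ⟨hP, τ, h2, h4, h3⟩⟩
    · obtain ⟨P, hP⟩ := (hov c).1
      exact ⟨P, fun h => absurd h hc⟩
  choose pb hpb using hbad
  have hr : 2 ^ N ≤ R.card + m * (d * m) := by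
    have h1 : (((R₀ \ R).image pb).card : ℤ) ≤ m * (d * m) := by
      refine hSTB d k F s z hcov m hdeg _ ?_
      intro P hP
      obtain ⟨c, hc, rfl⟩ := Finset.mem_image.1 hP
      obtain ⟨h2, h3⟩ := hpb c hc
      exact ⟨UCN_ge0 _ s c h2, h3⟩
    have h2 : ((R₀ \ R).image pb).card = (R₀ \ R).card := by
      apply Finset.card_image_of_injOn
      intro c hc c' hc' hcc
      rw [Finset.mem_coe] at hc hc'
      have h3 := (hpb c hc).1
      have h4 := (hpb c' hc').1
      rw [hcc] at h3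
      exact UCN_uniq _ s c c' h3 h4
    rw [h2] at h1
    have h5 : (R₀ \ R).card + R.card = R₀.card := Finset.card_sdiff_add_card_eq_card hRsub
    have h6 : (R₀ \ R).card ≤ m * (d * m) := by exact_mod_cast h1
    omega
  obtain ⟨T, hTc, hTo, hTcl⟩ := hUC1 k F hFF s hs hG m hcard hm1 N α hα hαs R
    (fun c hc => (hR₀ c).1 (hRsub hc)) (fun c hc => (Finset.mem_filter.1 hc).2)
  -- the automorphisms
  set Hf : Finset (F ≃ₐ[k] F) := hfin.toFinset with hHf
  have hmem : ∀ τ : F ≃ₐ[k] F, τ ∈ Hf ↔ τ s = s := by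
    intro τ
    rw [hHf, Set.Finite.mem_toFinset]
    rfl
  have hHc : Hf.card = m := by
    rw [← hcard, hHf]
    exact (Nat.card_eq_card_finite_toFinset hfin).symm
  have h1mem : (1 : F ≃ₐ[k] F) ∈ Hf := (hmem 1).2 rfl
  -- the zeros of `D(s)`
  set B : Finset (Place k F) := T.filter (fun P => P.ord (Polynomial.aeval s D) ≠ 0) with hB
  have hBc : B.card ≤ d * m := by
    have h1 : B ⊆ D.roots.toFinset.biUnion
        (fun c => T.filter (fun P => P.Ge 1 (s - algebraMap k F c))) := by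
      intro P hP
      rw [hB, Finset.mem_filter] at hP
      obtain ⟨hPT, hP0⟩ := hP
      obtain ⟨c, hc, hPc⟩ := hTo P hPT
      rw [Finset.mem_biUnion]
      refine ⟨c, ?_, Finset.mem_filter.2 ⟨hPT, hPc⟩⟩
      rw [Multiset.mem_toFinset, Polynomial.mem_roots hD]
      by_contra hne
      exact hP0 (UCN_val P s c hPc D hne)
    refine (Finset.card_le_card h1).trans (Finset.card_biUnion_le.trans ?_)
    have h2 : ∀ c ∈ D.roots.toFinset,
        (T.filter (fun P => P.Ge 1 (s - algebraMap k F c))).card ≤ m := by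
      intro c hc
      have hsc : s - algebraMap k F c ≠ 0 := by
        intro h0
        apply hs
        rw [sub_eq_zero.1 h0]
        exact isAlgebraic_algebraMap c
      have h3 := hZCT k F hFF s hs 1 (s - algebraMap k F c) hsc ?_
        (T.filter (fun P => P.Ge 1 (s - algebraMap k F c)))
        (fun P hP => (Finset.mem_filter.1 hP).2)
      · rw [hdeg] at h3
        push_cast at h3
        have : ((T.filter (fun P => P.Ge 1 (s - algebraMap k F c))).card : ℤ) ≤ m := by
          linarith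
        exact_mod_cast this
      · intro P
        have h4 : P.Ge (-(((1 : ℕ) : ℤ) * max (-P.ord s) 0)) s := by
          refine (P.ge_ord s).mono ?_
          have := le_max_left (-P.ord s) 0
          push_cast
          linarith
        refine h4.sub ((P.ge_const c).mono ?_)
        have := le_max_right (-P.ord s) 0
        push_cast
        linarith
    refine (Finset.sum_le_sum h2).trans ?_
    rw [Finset.sum_const, smul_eq_mul]
    apply Nat.mul_le_mul_right
    exact (Multiset.toFinset_card_le _).trans ((Polynomial.card_roots' D).trans hDd)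
  -- counting
  have hsub : T ⊆ B ∪ (Hf.erase 1).biUnion
      (fun τ => T.filter (fun y => ∀ f : F, y.ord (α f) = y.ord (τ f))) := by
    intro y hy
    obtain ⟨τ, hτ, hyτ⟩ := hTcl y hy
    rw [Finset.mem_union]
    by_cases h1 : τ = 1
    · left
      rw [hB, Finset.mem_filter]
      refine ⟨hy, fun h0 => hcon ?_⟩
      obtain ⟨c, hc, hyc⟩ := hTo y hy
      have h2 := UCN_ge0 y s c hyc
      refine ⟨y, h2, (hint y).1 h2, h0, ?_⟩
      intro f
      rw [hyτ f, h1]
      rfl
    · right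
      rw [Finset.mem_biUnion]
      exact ⟨τ, Finset.mem_erase.2 ⟨h1, (hmem τ).2 hτ⟩, Finset.mem_filter.2 ⟨hy, hyτ⟩⟩
  have hbd : ∀ τ ∈ Hf.erase 1,
      ((T.filter (fun y => ∀ f : F, y.ord (α f) = y.ord (τ f))).card : ℤ) ≤
        ((2 ^ N : ℕ) : ℤ) + (3 * g + 2) * l' + 1 := by
    intro τ hτ
    have : Fact (Nat.Prime 2) := ⟨Nat.prime_two⟩
    have h1 := hBB2 2 k F hFF g hg (N - e) e l l' hl hl' hl2 hgl α (by rw [hll]; exact hα) τ
      (T.filter (fun y => ∀ f : F, y.ord (α f) = y.ord (τ f)))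
      (fun y hy => (Finset.mem_filter.1 hy).2)
    rw [← hll]
    push_cast
    exact h1
  have hN2 : (T.card : ℤ) ≤ B.card + ((m : ℤ) - 1) * (((2 ^ N : ℕ) : ℤ) + (3 * g + 2) * l' + 1) := by
    have h1 := (Finset.card_le_card hsub).trans (Finset.card_union_le _ _)
    have h2 : (((Hf.erase 1).biUnion
        (fun τ => T.filter (fun y => ∀ f : F, y.ord (α f) = y.ord (τ f)))).card : ℤ) ≤
        ∑ τ ∈ Hf.erase 1, ((T.filter (fun y => ∀ f : F, y.ord (α f) = y.ord (τ f))).card : ℤ) := by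
      exact_mod_cast Finset.card_biUnion_le
    have h3 := Finset.sum_le_sum hbd
    rw [Finset.sum_const, Finset.card_erase_of_mem h1mem, nsmul_eq_mul, hHc, Nat.cast_sub hm1,
      Nat.cast_one] at h3
    have h4 : (T.card : ℤ) ≤ (B.card : ℤ) + (((Hf.erase 1).biUnion
        (fun τ => T.filter (fun y => ∀ f : F, y.ord (α f) = y.ord (τ f)))).card : ℤ) := by
      exact_mod_cast h1
    linarith
  have hqq : l' * l' ≤ 2 ^ N := by
    rw [← hll]
    exact Nat.mul_le_mul_right _ hl3
  exact UCN_arith d m g (2 ^ N) R.card B.card T.card l' hm1 hmd hgb hbig hqq hr hBc hTc hN2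

end

end Pool.Agent.helper70.QSD
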